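import Pool.Agent.Mg.C853.G727f74

set_option autoImplicit false

namespace Pool.Agent.Results.MP_2a1f0e_nt.DensityLargeValues

theorem result :
    ∀ A ε : ℝ, 0 < ε → ∃ K : ℝ, ∀ (N : ℕ) (T σ : ℝ), 1 ≤ N → (N : ℝ) ≤ T → T ≤ (N : ℝ) ^ A →
      (T ≤ (N : ℝ) ^ (3 / 2 : ℝ) ∨ (N : ℝ) ^ 2 ≤ T) → 7 / 9 ≤ σ → σ ≤ 1 →
      ∀ b : ℕ → ℂ, (∀ n, ‖b n‖ ≤ 1) →
        ∀ W : Finset ℝ, (∀ t ∈ W, 0 ≤ t ∧ t ≤ T) →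
          (∀ s ∈ W, ∀ t ∈ W, s ≠ t → 1 ≤ |s - t|) →
          (∀ t ∈ W, (N : ℝ) ^ σ ≤ ‖∑ n ∈ Finset.Icc N (2 * N),
              b n * Complex.exp (Complex.I * (t : ℂ) * ((Real.log (n : ℝ) : ℝ) : ℂ))‖) →
          (W.card : ℝ) ≤ K * (N : ℝ) ^ ε * T ^ (2 - 2 * σ) :=
  Pool.Agent.MP_2a1f0e_nt.DH.lv_all

end Pool.Agent.Results.MP_2a1f0e_nt.DensityLargeValues
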