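import Pool.Agent.Mg.C853.G83f85e

set_option autoImplicit false

namespace Pool.Agent.Results.MP_2a1f0e_nt.MomentRange

theorem result :
    ∀ (k m : ℕ) (q θ d η : ℝ), m ≤ k → k < 2 * m → q = 2 * (k : ℝ) + θ → d = 2 * (m : ℝ) - k →
      0 ≤ θ → θ ≤ 2 →
      ((η ≤ d / (4 * d - θ) ∧ (k = 2 ∨ η ≤ (34 * (m : ℝ) - 21 * k) / (42 * d))) ∨
        η ≤ d / (14 * d - 6 * θ)) →
      ∀ ε : ℝ, 0 < ε → ∃ K : ℝ, ∀ N T : ℕ, 1 ≤ N → (T : ℝ) ≤ (N : ℝ) ^ ((k : ℝ) + θ * η) →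
        ∀ b : ℕ → ℂ, (∀ n, ‖b n‖ ≤ 1) →
          ∑ t ∈ Finset.Icc 1 T,
              ‖∑ n ∈ Finset.Icc N (2 * N),
                  b n * Complex.exp (Complex.I * (t : ℂ) * ((Real.log (n : ℝ) : ℝ) : ℂ))‖ ^ q
            ≤ K * (N : ℝ) ^ ε * ((N : ℝ) ^ q + (N : ℝ) ^ (q / 2) * (T : ℝ)) := by
  intro k m q θ d η p1 p2 hq hd θ0 θ2 h ε hε
  have q2 : (k : ℝ) + 1 ≤ 2 * m := by exact_mod_cast p2
  have d1 : 1 ≤ d := by linarith
  have key : ∀ {u v : ℝ}, 0 < v → η ≤ u / v → v * (θ * η) ≤ θ * u := fun {u v} hv h => by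
    have := mul_le_mul_of_nonneg_left ((le_div_iff₀ hv).1 h) θ0
    linarith
  have hP : Pool.Agent.MP_2a1f0e_nt.LQ.Par k m θ (θ * η) := by
    refine ⟨p1, p2, θ0, θ2, ?_⟩
    rcases h with ⟨h1, h2⟩ | h
    · have k1 := key (by linarith) h1
      refine Or.inl ⟨by rw [hd] at k1; linarith, h2.imp_right fun h2 => ?_⟩
      have k2 := key (by linarith) h2
      rw [hd] at k2
      linarith
    · have k1 := key (by linarith) h
      rw [hd] at k1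
      exact Or.inr (by linarith)
  obtain ⟨K, hK⟩ := Pool.Agent.MP_2a1f0e_nt.LQ.mom_all k m θ (θ * η) q ε hP (by linarith) hε
  refine ⟨K, fun N T hN hT b hb => ?_⟩
  have := hK N T hN hT b hb
  simpa only [Pool.Agent.MP_2a1f0e_nt.GM.DP, Pool.Agent.MP_2a1f0e_nt.GM.pw,
    Complex.ofReal_natCast] using this

end Pool.Agent.Results.MP_2a1f0e_nt.MomentRange
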