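import Pool.Agent.Mg.C853.Gbf817d

set_option autoImplicit false

namespace Pool.Agent.Results.MP_2a1f0e_nt.ZeroDensity

theorem result :
    ∀ ε : ℝ, 0 < ε → ∃ K : ℝ, ∀ σ T : ℝ, 1 / 2 ≤ σ → σ ≤ 1 → 1 ≤ T →
      ∀ Z : Finset ℂ,
        (∀ ρ ∈ Z, riemannZeta ρ = 0 ∧ σ ≤ ρ.re ∧ 0 < ρ.im ∧ ρ.im ≤ T) →
        ∑ ρ ∈ Z, ((analyticOrderAt riemannZeta ρ).toNat : ℝ) ≤ K * T ^ (9 / 4 * (1 - σ) + ε) :=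
  Pool.Agent.MP_2a1f0e_nt.SQ.zd9_all

end Pool.Agent.Results.MP_2a1f0e_nt.ZeroDensity
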